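import Pool.Agent.H88.Hot4

open Pool.Agent.H88.Hot

namespace Pool.Agent.Results.MP_1debac_an.Q1

theorem result : ∃ (G : QG) (α : Fin G.nv → ℝ), G.Good ∧ (∃ v, α v ≠ 0) ∧
    (G.M α).Infinite ∧ G.M α ≠ G.Pts :=
  ⟨GC, aC, GC_good, ⟨2, by simp [aC]⟩, GC_inf, GC_ne⟩

end Pool.Agent.Results.MP_1debac_an.Q1
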